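import Pool.Agent.DFO.StmtsB

/-!
# Squad DFO, row NUM: the numerical contradiction
-/

namespace Pool.Agent.DFO.H41

open Pool.Agent.DFO

theorem num : NumStmt := by
  intro n q c₁ ρ μ C B₁ hc hρ hμ hC
  obtain ⟨C3, hC3⟩ : ∃ C3 : ℝ, C3 = 3 * n + 2 + ρ * C := ⟨_, rfl⟩
  obtain ⟨K, hK⟩ : ∃ K : ℝ, K = C3 / μ + 1 := ⟨_, rfl⟩
  have hn0 : (0 : ℝ) ≤ n := Nat.cast_nonneg n
  have hq0 : (0 : ℝ) ≤ q := Nat.cast_nonneg q
  have hC3p : 0 < C3 := by rw [hC3]; positivity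
  have hKp : 0 < K := by rw [hK]; positivity
  obtain ⟨B, hB⟩ : ∃ B : ℝ, B = max B₁ (max 1 ((2 * (q * K ^ (n + 1)) + 1) / (c₁ * ρ))) :=
    ⟨_, rfl⟩
  have hB1 : B₁ ≤ B := by rw [hB]; exact le_max_left _ _
  have hB2 : 1 ≤ B := by rw [hB]; exact (le_max_left _ _).trans (le_max_right _ _)
  have hB3 : (2 * (q * K ^ (n + 1)) + 1) / (c₁ * ρ) ≤ B := by
    rw [hB]; exact (le_max_right _ _).trans (le_max_right _ _)
  have hBp : 0 < B := by linarith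
  have hcr : 0 < c₁ * ρ := mul_pos hc hρ
  have hB4 : 2 * (q * K ^ (n + 1)) + 1 ≤ B * (c₁ * ρ) := (div_le_iff₀ hcr).1 hB3
  refine ⟨B, hB1, hB2, ?_⟩
  intro M hM
  refine ⟨max B (max (2 / ρ) 1), ?_⟩
  intro H hH
  have hH1 : B ≤ H := (le_max_left _ _).trans hH
  have hH2 : 2 / ρ ≤ H := ((le_max_left _ _).trans (le_max_right _ _)).trans hH
  have hH3 : 1 ≤ H := ((le_max_right _ _).trans (le_max_right _ _)).trans hH
  have hHp : 0 < H := by linarith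
  have hρH : 2 ≤ ρ * H := by
    have := (div_le_iff₀ hρ).1 hH2
    linarith
  obtain ⟨N, hN⟩ : ∃ N : ℕ, N = ⌊H / B⌋₊ := ⟨_, rfl⟩
  obtain ⟨J, hJ⟩ : ∃ J : ℕ, J = ⌊ρ * H⌋₊ := ⟨_, rfl⟩
  have hN1 : (N : ℝ) ≤ H / B := by rw [hN]; exact Nat.floor_le (by positivity)
  have hN2 : H / B < N + 1 := by rw [hN]; exact Nat.lt_floor_add_one _
  have hJ1 : (J : ℝ) ≤ ρ * H := by rw [hJ]; exact Nat.floor_le (by linarith)
  have hJ2 : ρ * H < J + 1 := by rw [hJ]; exact Nat.lt_floor_add_one _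
  have hNB : (N : ℝ) * B ≤ H := (le_div_iff₀ hBp).1 hN1
  obtain ⟨b, hb⟩ : ∃ b : ℝ, b = (3 * n * N + 1) * B + H + J * C := ⟨_, rfl⟩
  have hN0 : (0 : ℝ) ≤ N := Nat.cast_nonneg N
  have hJ0 : (0 : ℝ) ≤ J := Nat.cast_nonneg J
  have hbp : 0 ≤ b := by rw [hb]; positivity
  have hbC : b ≤ C3 * H := by
    have e1 : 3 * (n : ℝ) * (N * B) ≤ 3 * n * H := mul_le_mul_of_nonneg_left hNB (by positivity)
    have e2 : (J : ℝ) * C ≤ ρ * H * C := mul_le_mul_of_nonneg_right hJ1 hC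
    rw [hb, hC3]
    nlinarith
  obtain ⟨N₂, hN₂⟩ : ∃ N₂ : ℕ, N₂ = ⌊b / μ⌋₊ + 1 := ⟨_, rfl⟩
  have h1 : b / μ < N₂ := by
    rw [hN₂]
    push_cast
    exact Nat.lt_floor_add_one _
  have h2 : (N₂ : ℝ) ≤ K * H := by
    have e1 : (⌊b / μ⌋₊ : ℝ) ≤ b / μ := Nat.floor_le (by positivity)
    have e2 : b / μ ≤ C3 * H / μ := div_le_div_of_nonneg_right hbC hμ.le
    rw [hN₂, hK]
    push_cast
    have e3 : (C3 / μ + 1) * H = C3 * H / μ + H := by ring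
    rw [e3]
    linarith
  refine ⟨N, J, N₂, hJ1, ?_, ?_⟩
  · rw [← hb]
    exact (div_lt_iff₀ hμ).1 h1
  · have hJ3 : ρ * H / 2 ≤ J := by linarith
    have hN₂0 : (0 : ℝ) ≤ N₂ := Nat.cast_nonneg N₂
    have e1 : (q : ℝ) * N₂ ^ (n + 1) ≤ q * (K * H) ^ (n + 1) :=
      mul_le_mul_of_nonneg_left (pow_le_pow_left₀ hN₂0 h2 _) hq0
    have e2 : (q : ℝ) * (K * H) ^ (n + 1) = (q * K ^ (n + 1)) * H ^ (n + 1) := by
      rw [mul_pow]; ring
    have hHn : 0 < H ^ (n + 1) := pow_pos hHp _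
    have e3 : (q * K ^ (n + 1)) * H ^ (n + 1) < (B * (c₁ * ρ) / 2) * H ^ (n + 1) := by
      apply mul_lt_mul_of_pos_right _ hHn
      linarith
    have e4 : (B * (c₁ * ρ) / 2) * H ^ (n + 1) =
        (c₁ * B ^ (n + 1)) * (H / B) ^ n * (ρ * H / 2) := by
      rw [div_pow, pow_succ, pow_succ]
      field_simp
    have hHB : 0 < H / B := by positivity
    have e5 : (c₁ * B ^ (n + 1)) * (H / B) ^ n * (ρ * H / 2) ≤ M * (N + 1) ^ n * J := by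
      apply mul_le_mul _ hJ3 (by positivity) (by positivity)
      apply mul_le_mul hM _ (by positivity) (by positivity)
      exact pow_le_pow_left₀ hHB.le hN2.le _
    have e6 : (q : ℝ) * N₂ ^ (n + 1) < M * (N + 1) ^ n * J := by
      linarith
    exact_mod_cast e6

end Pool.Agent.DFO.H41
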